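import Mathlib
import Pool.Agent.Results.MP_b7335c_lc.TwoProbePowerSaving

set_option autoImplicit false

namespace Pool.Agent.Y497.BP

open Finset
open Pool.Agent.Results.MP_b7335c_lc.TwoProbePowerSaving

/-- The structural condition on a triple of position maps which makes the scheme correct. -/
structure Good {X α β γ : Type} (A : X → α) (B : X → β) (C : X → γ) : Prop where
  hB : ∀ x y, A x = A y → B x = B y → x = y
  hC : ∀ x y, A x = A y → C x = C y → x = y
  h1 : ∀ e g y, A e = A g → B e = B y → C g = C y → A e = A y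
  h2 : ∀ x e y g f h, A x = A e → A y = A g → A f = A h → B e = B y → C g = C x →
    B f = B x → C h = C y → A x = A y

theorem Good.correct {X α β γ : Type} {A : X → α} {B : X → β} {C : X → γ}
    (H : Good A B C) : Correct 2 A B C := by
  apply correct_two A B C H.hB H.hC
  intro x y hne
  by_contra hcon
  push Not at hcon
  obtain ⟨hBB, hCC, hBC, hCB⟩ := hcon
  have hP : (∃ e, A e = A x ∧ B e = B y) ∨ (∃ e, A e = A y ∧ B e = B x) := by
    by_cases h : ∀ e, A e = A x → B e = B y → e = x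
    · right
      obtain ⟨e, h1, h2, _⟩ := hBB h
      exact ⟨e, h1, h2⟩
    · left
      push Not at h
      obtain ⟨e, h1, h2, _⟩ := h
      exact ⟨e, h1, h2⟩
  have hQ : (∃ e, A e = A x ∧ C e = C y) ∨ (∃ e, A e = A y ∧ C e = C x) := by
    by_cases h : ∀ e, A e = A x → C e = C y → e = x
    · right
      obtain ⟨e, h1, h2, _⟩ := hCC h
      exact ⟨e, h1, h2⟩
    · left
      push Not at h
      obtain ⟨e, h1, h2, _⟩ := h
      exact ⟨e, h1, h2⟩
  obtain ⟨f, f', hf1, -, -, hf2, hf3⟩ := hBC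
  obtain ⟨g, g', hg1, -, -, hg2, hg3⟩ := hCB
  rcases hP with ⟨e, he1, he2⟩ | ⟨e, he1, he2⟩
  · rcases hQ with ⟨k, hk1, hk2⟩ | ⟨k, hk1, hk2⟩
    · exact hne ((he1.symm).trans (H.h1 e k y (he1.trans hk1.symm) he2 hk2))
    · exact hne (H.h2 x e y k f f' he1.symm hk1.symm hf1 he2 hk2 hf2 hf3.1)
  · rcases hQ with ⟨k, hk1, hk2⟩ | ⟨k, hk1, hk2⟩
    · exact hne (H.h2 y e x k g' g he1.symm hk1.symm hg1.symm he2 hk2 hg3.1 hg2).symm
    · exact hne ((H.h1 e k x (he1.trans hk1.symm) he2 hk2).symm.trans he1)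

/-- Words of length `n` over `L` with letter counts `c`. -/
abbrev Cls {L : Type} [Fintype L] [DecidableEq L] (n : ℕ) (c : L → ℕ) : Type :=
  {w : Fin n → L // ∀ l, (univ.filter (fun i => w i = l)).card = c l}

theorem Cls.ext' {L : Type} [Fintype L] [DecidableEq L] {n : ℕ} {c : L → ℕ} {v w : Cls n c}
    (h : ∀ i, v.1 i = w.1 i) : v = w := Subtype.ext (funext h)

/-- Push forward of a word. -/
def push {L M : Type} [Fintype L] [DecidableEq L] [Fintype M] [DecidableEq M] {n : ℕ} {c : L → ℕ}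
    (a : L → M) (d : M → ℕ) (hd : ∀ m, ∑ l ∈ univ.filter (fun l => a l = m), c l = d m)
    (w : Cls n c) : Cls n d :=
  ⟨fun i => a (w.1 i), fun m => by
    rw [← hd m, Finset.card_eq_sum_card_fiberwise (f := w.1)
      (t := univ.filter (fun l => a l = m))]
    · apply Finset.sum_congr rfl
      intro l hl
      rw [Finset.mem_filter] at hl
      rw [← w.2 l]
      congr 1
      ext i
      simp only [Finset.mem_filter, Finset.mem_univ, true_and]
      constructor
      · rintro ⟨_, h⟩; exact h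
      · intro h; exact ⟨by rw [h]; exact hl.2, h⟩
    · intro i hi
      simpa using hi⟩

theorem push_eq {L M : Type} [Fintype L] [DecidableEq L] [Fintype M] [DecidableEq M] {n : ℕ}
    {c : L → ℕ} {a : L → M} {d : M → ℕ}
    {hd : ∀ m, ∑ l ∈ univ.filter (fun l => a l = m), c l = d m} {v w : Cls n c} :
    push a d hd v = push a d hd w ↔ ∀ i, a (v.1 i) = a (w.1 i) := by
  constructor
  · intro h i
    have := congrArg Subtype.val h
    exact congrFun this i
  · intro h
    exact Subtype.ext (funext h)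

/-- The sum of a letter statistic over a word depends only on the type. -/
theorem sum_stat {L : Type} [Fintype L] [DecidableEq L] {n : ℕ} {c : L → ℕ} (w : Cls n c)
    (φ : L → ℤ) : ∑ i, φ (w.1 i) = ∑ l, (c l : ℤ) * φ l := by
  rw [← Finset.sum_fiberwise univ w.1 (fun i => φ (w.1 i))]
  apply Finset.sum_congr rfl
  intro l _
  rw [← w.2 l, Finset.sum_congr rfl (g := fun _ => φ l)]
  · rw [Finset.sum_const, nsmul_eq_mul]
  · intro i hi
    rw [Finset.mem_filter] at hi
    rw [hi.2]

/-- A certificate on the letters gives a good triple on every type class. -/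
theorem good_of_cert {L α β γ : Type} [Fintype L] [DecidableEq L]
    [Fintype α] [DecidableEq α] [Fintype β] [DecidableEq β] [Fintype γ] [DecidableEq γ]
    (a : L → α) (b : L → β) (c : L → γ)
    (hB : ∀ x y, a x = a y → b x = b y → x = y)
    (hC : ∀ x y, a x = a y → c x = c y → x = y)
    (h1 : ∀ e g y, a e = a g → b e = b y → c g = c y → a e = a y)
    (wx we wy wg wf wh : L → ℤ) (hw : ∀ l, wx l + we l + wy l + wg l + wf l + wh l = 0)
    (h2 : ∀ x e, a x = a e → ∀ y, b e = b y → ∀ g, a y = a g → c g = c x → ∀ f, b f = b x →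
      ∀ h, a f = a h → c h = c y →
      (if a x = a y then 0 else 1) ≤ wx x + we e + wy y + wg g + wf f + wh h)
    {n : ℕ} {r : L → ℕ} {ra : α → ℕ} {rb : β → ℕ} {rc : γ → ℕ}
    (hra : ∀ m, ∑ l ∈ univ.filter (fun l => a l = m), r l = ra m)
    (hrb : ∀ m, ∑ l ∈ univ.filter (fun l => b l = m), r l = rb m)
    (hrc : ∀ m, ∑ l ∈ univ.filter (fun l => c l = m), r l = rc m) :
    Good (X := Cls n r) (push a ra hra) (push b rb hrb) (push c rc hrc) := by
  constructor
  · intro x y h h'
    rw [push_eq] at h h'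
    exact Cls.ext' fun i => hB _ _ (h i) (h' i)
  · intro x y h h'
    rw [push_eq] at h h'
    exact Cls.ext' fun i => hC _ _ (h i) (h' i)
  · intro e g y h h' h''
    rw [push_eq] at h h' h'' ⊢
    exact fun i => h1 _ _ _ (h i) (h' i) (h'' i)
  · intro x e y g f h k1 k2 k3 k4 k5 k6 k7
    rw [push_eq] at k1 k2 k3 k4 k5 k6 k7 ⊢
    have hsum : ∑ i, (if a (x.1 i) = a (y.1 i) then (0 : ℤ) else 1) ≤
        ∑ i, (wx (x.1 i) + we (e.1 i) + wy (y.1 i) + wg (g.1 i) + wf (f.1 i) + wh (h.1 i)) :=
      Finset.sum_le_sum fun i _ => h2 _ _ (k1 i) _ (k4 i) _ (k2 i) (k5 i) _ (k6 i) _ (k3 i) (k7 i)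
    rw [Finset.sum_add_distrib, Finset.sum_add_distrib, Finset.sum_add_distrib,
      Finset.sum_add_distrib, Finset.sum_add_distrib, sum_stat, sum_stat, sum_stat, sum_stat,
      sum_stat, sum_stat, ← Finset.sum_add_distrib, ← Finset.sum_add_distrib,
      ← Finset.sum_add_distrib, ← Finset.sum_add_distrib, ← Finset.sum_add_distrib] at hsum
    have h0 : ∑ l, ((r l : ℤ) * wx l + (r l : ℤ) * we l + (r l : ℤ) * wy l + (r l : ℤ) * wg l +
        (r l : ℤ) * wf l + (r l : ℤ) * wh l) = 0 := by
      apply Finset.sum_eq_zero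
      intro l _
      rw [← mul_add, ← mul_add, ← mul_add, ← mul_add, ← mul_add, hw l, mul_zero]
    rw [h0] at hsum
    have hnn : ∀ i ∈ (univ : Finset (Fin n)),
        (0 : ℤ) ≤ (if a (x.1 i) = a (y.1 i) then (0 : ℤ) else 1) := by
      intro i _; split_ifs <;> norm_num
    have hz := (Finset.sum_eq_zero_iff_of_nonneg hnn).1 (le_antisymm hsum (Finset.sum_nonneg hnn))
    intro i
    by_contra hne
    have := hz i (Finset.mem_univ i)
    rw [if_neg hne] at this
    exact one_ne_zero this

/-- Upper bound for the size of a type class. -/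
theorem card_cls_upper {L : Type} [Fintype L] [DecidableEq L] (r : L → ℕ) (t : ℕ) :
    Fintype.card (Cls ((∑ l, r l) * t) (fun l => r l * t)) * (∏ l, r l ^ r l) ^ t ≤
      ((∑ l, r l) ^ (∑ l, r l)) ^ t := by
  classical
  set n := (∑ l, r l) * t with hn
  have h1 : ((∑ l, r l) ^ (∑ l, r l)) ^ t = ∑ v : Fin n → L, ∏ i, r (v i) := by
    rw [← pow_mul, ← hn]
    have := Finset.sum_pow' (univ : Finset L) r n
    rw [this]
    simp
  rw [h1]
  have h2 : ∀ w : Cls n (fun l => r l * t), (∏ l, r l ^ r l) ^ t = ∏ i, r (w.1 i) := by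
    intro w
    rw [← Finset.prod_fiberwise univ w.1 (fun i => r (w.1 i)), ← Finset.prod_pow]
    apply Finset.prod_congr rfl
    intro l _
    rw [Finset.prod_congr rfl (g := fun _ => r l)]
    · rw [Finset.prod_const, w.2 l, pow_mul]
    · intro i hi
      rw [Finset.mem_filter] at hi
      rw [hi.2]
  have h3 : Fintype.card (Cls n (fun l => r l * t)) * (∏ l, r l ^ r l) ^ t =
      ∑ w : Cls n (fun l => r l * t), ∏ i, r (w.1 i) := by
    rw [Finset.sum_congr rfl (fun w _ => (h2 w).symm), Finset.sum_const, smul_eq_mul]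
    rfl
  rw [h3]
  have h4 : ∑ w : Cls n (fun l => r l * t), ∏ i, r (w.1 i) =
      ∑ v ∈ (univ : Finset (Cls n (fun l => r l * t))).map ⟨Subtype.val, Subtype.val_injective⟩,
        ∏ i, r (v i) := by
    rw [Finset.sum_map]
    rfl
  rw [h4]
  exact Finset.sum_le_sum_of_subset (Finset.subset_univ _)

end Pool.Agent.Y497.BP
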