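import Mathlib
import Pool.Agent.Y497.BP.Good

set_option autoImplicit false

namespace Pool.Agent.Y497.BP

open Finset

theorem exists_word {L : Type} [Fintype L] [DecidableEq L] (n : ℕ) (c : L → ℕ)
    (hn : ∑ l, c l = n) :
    ∃ w : Fin n → L, ∀ l, (univ.filter (fun i => w i = l)).card = c l := by
  classical
  have hcard : Fintype.card (Fin n) = Fintype.card (Σ l, Fin (c l)) := by
    simp [hn]
  let e := Fintype.equivOfCardEq hcard
  refine ⟨fun i => (e i).1, fun l => ?_⟩
  have h1 : (univ.filter (fun i => (e i).1 = l)).card =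
      (univ.filter (fun p : (Σ l, Fin (c l)) => p.1 = l)).card := by
    apply Finset.card_equiv e
    intro i; simp
  rw [h1]
  have h2 : (univ.filter (fun p : (Σ l, Fin (c l)) => p.1 = l)) =
      (univ : Finset (Fin (c l))).map ⟨fun j => (⟨l, j⟩ : Σ l, Fin (c l)), by
        intro i j h
        simpa using h⟩ := by
    ext ⟨m, j⟩
    simp only [Finset.mem_filter, Finset.mem_univ, true_and, Finset.mem_map,
      Function.Embedding.coeFn_mk]
    constructor
    · rintro rfl
      exact ⟨j, rfl⟩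
    · rintro ⟨k, hk⟩
      exact (congrArg Sigma.fst hk).symm
  rw [h2, Finset.card_map, Finset.card_univ, Fintype.card_fin]

theorem factorial_le {L : Type} [Fintype L] [DecidableEq L] (n : ℕ) (c : L → ℕ)
    (hn : ∑ l, c l = n) :
    n.factorial ≤ (∏ l, (c l).factorial) * Fintype.card (Cls n c) := by
  classical
  obtain ⟨w0, hw0⟩ := exists_word n c hn
  let F : Equiv.Perm (Fin n) → Cls n c := fun σ => ⟨fun i => w0 (σ i), fun l => by
    rw [← hw0 l]
    exact Finset.card_equiv σ (by intro i; simp)⟩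
  have hstab : (univ.filter (fun g : Equiv.Perm (Fin n) => w0 ∘ g = w0)).card =
      ∏ l, (c l).factorial := by
    have h := DomMulAct.stabilizer_card (α := Fin n) (ι := L) w0
    rw [Fintype.card_subtype] at h
    rw [h]
    apply Finset.prod_congr rfl
    intro l _
    rw [Fintype.card_subtype, hw0 l]
  have h1 := Finset.card_le_mul_card_image_of_maps_to (f := F) (s := univ) (t := univ)
    (fun _ _ => Finset.mem_univ _) (∏ l, (c l).factorial) (by
      intro w _
      by_cases hne : ∃ σ0, F σ0 = w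
      · obtain ⟨σ0, h0⟩ := hne
        rw [← hstab]
        apply Finset.card_le_card_of_injOn (fun σ => σ * σ0⁻¹)
        · intro σ hσ
          have hσ' : F σ = w := by simpa using hσ
          have h3 : ∀ i, w0 (σ i) = w0 (σ0 i) := by
            intro i
            have := congrArg Subtype.val (hσ'.trans h0.symm)
            exact congrFun this i
          simp only [Finset.coe_filter, Finset.mem_univ, true_and, Set.mem_setOf_eq]
          funext i
          have := h3 (σ0⁻¹ i)
          simp only [Function.comp_apply, Equiv.Perm.coe_mul]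
          rw [this]
          simp
        · intro σ _ τ _ h
          exact mul_right_cancel h
      · push Not at hne
        rw [Finset.filter_eq_empty_iff.2]
        · simp
        · intro σ _
          exact hne σ)
  rw [Finset.card_univ, Fintype.card_perm, Fintype.card_fin, Finset.card_univ] at h1
  exact h1

theorem fac_lower (n : ℕ) : (n : ℝ) ^ n / Real.exp n ≤ n.factorial := by
  rcases Nat.eq_zero_or_pos n with rfl | hn
  · simp
  · have h := Stirling.le_factorial_stirling n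
    have h1 : ((n : ℝ) / Real.exp 1) ^ n = (n : ℝ) ^ n / Real.exp n := by
      rw [div_pow, ← Real.exp_nat_mul, mul_one]
    rw [h1] at h
    have h2 : (1 : ℝ) ≤ √(2 * Real.pi * n) := by
      rw [Real.one_le_sqrt]
      have h3 : (1 : ℝ) ≤ n := by exact_mod_cast hn
      nlinarith [Real.pi_gt_three]
    have h4 : 0 ≤ (n : ℝ) ^ n / Real.exp n := by positivity
    nlinarith

theorem succ_pow_ge (n : ℕ) : (n : ℝ) ^ (n + 1) * Real.exp 1 ≤ ((n : ℝ) + 1) ^ (n + 1) := by
  have h1 : (n : ℝ) / (n + 1) ≤ Real.exp (-(1 / ((n : ℝ) + 1))) := by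
    have := Real.add_one_le_exp (-(1 / ((n : ℝ) + 1)))
    have h2 : (n : ℝ) / (n + 1) = -(1 / ((n : ℝ) + 1)) + 1 := by
      field_simp
      ring
    rw [h2]; exact this
  have h3 : ((n : ℝ) / (n + 1)) ^ (n + 1) ≤ Real.exp (-1) := by
    calc ((n : ℝ) / (n + 1)) ^ (n + 1) ≤ (Real.exp (-(1 / ((n : ℝ) + 1)))) ^ (n + 1) :=
          pow_le_pow_left₀ (by positivity) h1 _
      _ = Real.exp (-1) := by
          rw [← Real.exp_nat_mul]
          congr 1
          push_cast
          field_simp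
  rw [div_pow, div_le_iff₀ (by positivity), Real.exp_neg] at h3
  have h4 := mul_le_mul_of_nonneg_right h3 (Real.exp_pos 1).le
  calc (n : ℝ) ^ (n + 1) * Real.exp 1 ≤ (Real.exp 1)⁻¹ * ((n : ℝ) + 1) ^ (n + 1) * Real.exp 1 := h4
    _ = ((n : ℝ) + 1) ^ (n + 1) := by
        field_simp

theorem fac_upper' (n : ℕ) : ((n + 1).factorial : ℝ) ≤
    Real.exp 1 * (n + 1) * (((n : ℝ) + 1) ^ (n + 1) / Real.exp (n + 1)) := by
  induction n with
  | zero => simp
  | succ k ih =>
    rw [Nat.factorial_succ]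
    push_cast
    have h := succ_pow_ge (k + 1)
    push_cast at h
    have he : Real.exp ((k : ℝ) + 1 + 1) = Real.exp (k + 1) * Real.exp 1 := by
      rw [← Real.exp_add]
    rw [he]
    have hp : 0 < Real.exp ((k : ℝ) + 1) := Real.exp_pos _
    have hp1 : 0 < Real.exp (1 : ℝ) := Real.exp_pos _
    calc ((k : ℝ) + 1 + 1) * ((k + 1).factorial : ℝ)
        ≤ ((k : ℝ) + 1 + 1) * (Real.exp 1 * (k + 1) * (((k : ℝ) + 1) ^ (k + 1) /
          Real.exp (k + 1))) := mul_le_mul_of_nonneg_left ih (by positivity)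
      _ = ((k : ℝ) + 1 + 1) * (((k : ℝ) + 1) ^ (k + 1 + 1) * Real.exp 1) / Real.exp (k + 1) := by
          rw [pow_succ ((k : ℝ) + 1) (k + 1)]
          ring
      _ ≤ ((k : ℝ) + 1 + 1) * ((k : ℝ) + 1 + 1) ^ (k + 1 + 1) / Real.exp (k + 1) := by
          apply div_le_div_of_nonneg_right _ hp.le
          exact mul_le_mul_of_nonneg_left h (by positivity)
      _ = Real.exp 1 * ((k : ℝ) + 1 + 1) * (((k : ℝ) + 1 + 1) ^ (k + 1 + 1) /
          (Real.exp (k + 1) * Real.exp 1)) := by
          field_simp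

theorem fac_upper (n : ℕ) : (n.factorial : ℝ) ≤
    Real.exp 1 * (n + 1) * ((n : ℝ) ^ n / Real.exp n) := by
  rcases n with _ | k
  · simp only [Nat.factorial_zero, Nat.cast_one, Nat.cast_zero, zero_add, mul_one, pow_zero,
      Real.exp_zero, div_one]
    have := Real.add_one_le_exp (1 : ℝ)
    linarith
  · have h := fac_upper' k
    push_cast
    refine h.trans ?_
    apply mul_le_mul_of_nonneg_right _ (by positivity)
    apply mul_le_mul_of_nonneg_left _ (Real.exp_pos 1).le
    linarith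

theorem card_lower {L : Type} [Fintype L] [DecidableEq L] (r : L → ℕ) (t : ℕ) :
    (((∑ l, r l : ℕ) : ℝ) ^ (∑ l, r l)) ^ t ≤
      (∏ l, (Real.exp 1 * (((r l * t : ℕ) : ℝ) + 1))) *
        Fintype.card (Cls ((∑ l, r l) * t) (fun l => r l * t)) *
        (((∏ l, r l ^ r l : ℕ) : ℝ)) ^ t := by
  set R := ∑ l, r l with hR
  have hsum : ∑ l, r l * t = R * t := by rw [hR, Finset.sum_mul]
  have h1 := factorial_le (R * t) (fun l => r l * t) hsum
  have h1' : (((R * t).factorial : ℕ) : ℝ) ≤ (∏ l, ((r l * t).factorial : ℝ)) *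
      Fintype.card (Cls (R * t) (fun l => r l * t)) := by
    have : (((R * t).factorial : ℕ) : ℝ) ≤ (((∏ l, (r l * t).factorial) *
      Fintype.card (Cls (R * t) (fun l => r l * t)) : ℕ) : ℝ) := by exact_mod_cast h1
    push_cast at this ⊢
    exact this
  have h2 := fac_lower (R * t)
  have h3 : (∏ l, ((r l * t).factorial : ℝ)) ≤
      ∏ l, (Real.exp 1 * (((r l * t : ℕ) : ℝ) + 1) *
        (((r l * t : ℕ) : ℝ) ^ (r l * t) / Real.exp ((r l * t : ℕ) : ℝ))) := by
    apply Finset.prod_le_prod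
    · intro l _; positivity
    · intro l _; exact fac_upper _
  rw [Finset.prod_mul_distrib, Finset.prod_div_distrib, ← Real.exp_sum] at h3
  have hexp : ∑ l, ((r l * t : ℕ) : ℝ) = ((R * t : ℕ) : ℝ) := by
    rw [← hsum]; push_cast; rfl
  rw [hexp] at h3
  have hprod : ∏ l, ((r l * t : ℕ) : ℝ) ^ (r l * t) =
      (((∏ l, r l ^ r l : ℕ) : ℝ)) ^ t * (t : ℝ) ^ (R * t) := by
    rw [← hsum, ← Finset.prod_pow_eq_pow_sum]
    push_cast
    rw [← Finset.prod_pow, ← Finset.prod_mul_distrib]
    apply Finset.prod_congr rfl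
    intro l _
    rw [mul_pow, pow_mul]
  rw [hprod] at h3
  have ht : (0 : ℝ) < (t : ℝ) ^ (R * t) := by
    rcases Nat.eq_zero_or_pos t with rfl | h
    · simp
    · positivity
  have hE : 0 < Real.exp ((R * t : ℕ) : ℝ) := Real.exp_pos _
  have h4 : (((R * t : ℕ) : ℝ)) ^ (R * t) = (((R : ℕ) : ℝ) ^ R) ^ t * (t : ℝ) ^ (R * t) := by
    push_cast
    rw [mul_pow, pow_mul]
  rw [h4] at h2
  have h5 : ((R : ℝ) ^ R) ^ t * (t : ℝ) ^ (R * t) / Real.exp ((R * t : ℕ) : ℝ) ≤
      ((∏ l, (Real.exp 1 * (((r l * t : ℕ) : ℝ) + 1))) *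
        ((((∏ l, r l ^ r l : ℕ) : ℝ)) ^ t * (t : ℝ) ^ (R * t) / Real.exp ((R * t : ℕ) : ℝ))) *
      Fintype.card (Cls (R * t) (fun l => r l * t)) :=
    h2.trans (h1'.trans (mul_le_mul_of_nonneg_right h3 (Nat.cast_nonneg _)))
  have h6 : 0 < (t : ℝ) ^ (R * t) / Real.exp ((R * t : ℕ) : ℝ) := by positivity
  rw [← mul_le_mul_iff_left₀ h6]
  calc ((R : ℝ) ^ R) ^ t * ((t : ℝ) ^ (R * t) / Real.exp ((R * t : ℕ) : ℝ))
      = ((R : ℝ) ^ R) ^ t * (t : ℝ) ^ (R * t) / Real.exp ((R * t : ℕ) : ℝ) := by ring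
    _ ≤ _ := h5
    _ = _ := by ring

end Pool.Agent.Y497.BP
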