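import Mathlib
import Pool.Agent.Y497.BP.Count

set_option autoImplicit false

namespace Pool.Agent.Y497.BP

open Finset
open Pool.Agent.Results.MP_b7335c_lc.TwoProbePowerSaving

theorem asymp (S Q Kc : ℝ) (D : ℕ) (hS : 1 ≤ S) (hSQ : S < Q) (hK : 1 ≤ Kc)
    (M : ℕ → ℕ) (hM : ∀ t : ℕ, Q ^ t ≤ Kc * ((t : ℝ) + 1) ^ D * M t)
    (hs : ∀ t m : ℕ, m ≤ M t → (minSpace 2 m : ℝ) ≤ 3 * S ^ t) (α : ℝ)
    (hα : Real.log S / Real.log Q < α) :
    ∃ K : ℝ, ∀ m : ℕ, 1 ≤ m → (minSpace 2 m : ℝ) ≤ K * (m : ℝ) ^ α := by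
  have hQ : 1 < Q := lt_of_le_of_lt hS hSQ
  have hQ0 : 0 < Q := by linarith
  have hS0 : 0 < S := by linarith
  have hlQ : 0 < Real.log Q := Real.log_pos hQ
  have hratio : Real.log S / Real.log Q < 1 := by
    rw [div_lt_one hlQ]; exact Real.log_lt_log hS0 hSQ
  obtain ⟨b, hb1, hb2, hb3⟩ : ∃ b : ℝ, Real.log S / Real.log Q < b ∧ b ≤ 1 ∧ b ≤ α :=
    ⟨min α 1, lt_min hα hratio, min_le_right _ _, min_le_left _ _⟩
  have hb0 : 0 < b := lt_of_le_of_lt (div_nonneg (Real.log_nonneg hS) hlQ.le) hb1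
  have hQb : S < Q ^ b := by
    rw [Real.rpow_def_of_pos hQ0]
    rw [div_lt_iff₀ hlQ] at hb1
    calc S = Real.exp (Real.log S) := (Real.exp_log hS0).symm
      _ < Real.exp (Real.log Q * b) := by
          apply Real.exp_lt_exp.2; linarith
  have hQb0 : 0 < Q ^ b := by linarith
  set θ := S / Q ^ b with hθ
  have hθ0 : 0 < θ := div_pos hS0 hQb0
  have hθ1 : θ < 1 := (div_lt_one hQb0).2 hQb
  -- boundedness
  obtain ⟨Bd, hBd⟩ : ∃ Bd : ℝ, ∀ t : ℕ, ((t : ℝ) + 1) ^ D * θ ^ t ≤ Bd := by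
    have h1 := tendsto_pow_const_mul_const_pow_of_lt_one D hθ0.le hθ1
    obtain ⟨B, hB⟩ := h1.bddAbove_range
    refine ⟨B / θ, fun t => ?_⟩
    have h2 := hB ⟨t + 1, rfl⟩
    simp only at h2
    rw [le_div_iff₀ hθ0]
    push_cast at h2
    calc ((t : ℝ) + 1) ^ D * θ ^ t * θ = ((t : ℝ) + 1) ^ D * θ ^ (t + 1) := by ring
      _ ≤ B := h2
  have hBd0 : 0 ≤ Bd := by
    have := hBd 0
    simp at this
    linarith
  -- the universes are unbounded
  have hunb : ∀ m : ℕ, ∃ t, m ≤ M t := by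
    intro m
    by_contra hcon
    push Not at hcon
    have hQi0 : 0 ≤ 1 / Q := by positivity
    have hQi1 : 1 / Q < 1 := by rw [div_lt_one hQ0]; exact hQ
    have h1 := (tendsto_pow_const_mul_const_pow_of_lt_one D hQi0 hQi1).comp
      (Filter.tendsto_add_atTop_nat 1)
    have hpos : (0 : ℝ) < 1 / (Q * (Kc * (m + 1))) := by positivity
    obtain ⟨t, ht⟩ := (h1.eventually (gt_mem_nhds hpos)).exists
    simp only [Function.comp_apply] at ht
    push_cast at ht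
    have h2 := hM t
    have h3 : (M t : ℝ) ≤ m := by exact_mod_cast (hcon t).le
    have h4 : Q ^ t ≤ Kc * ((t : ℝ) + 1) ^ D * (m + 1) :=
      h2.trans (mul_le_mul_of_nonneg_left (by linarith) (by positivity))
    rw [lt_div_iff₀ (by positivity)] at ht
    have h5 : ((t : ℝ) + 1) ^ D * (1 / Q) ^ (t + 1) * (Q * (Kc * (m + 1))) =
        (Kc * ((t : ℝ) + 1) ^ D * (m + 1)) / Q ^ t := by
      rw [div_pow, one_pow, pow_succ]
      field_simp
    rw [h5, div_lt_one (by positivity)] at ht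
    linarith
  refine ⟨3 * S * Kc * Bd + 3, fun m hm => ?_⟩
  have hm1 : (1 : ℝ) ≤ m := by exact_mod_cast hm
  have hmb : (m : ℝ) ^ b ≤ (m : ℝ) ^ α := Real.rpow_le_rpow_of_exponent_le hm1 hb3
  have hmb1 : 1 ≤ (m : ℝ) ^ b := Real.one_le_rpow hm1 hb0.le
  suffices h : (minSpace 2 m : ℝ) ≤ (3 * S * Kc * Bd + 3) * (m : ℝ) ^ b from
    h.trans (mul_le_mul_of_nonneg_left hmb (by positivity))
  classical
  obtain ⟨t, ht, hmin⟩ : ∃ t, m ≤ M t ∧ ∀ k, k < t → ¬ m ≤ M k :=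
    ⟨Nat.find (hunb m), Nat.find_spec (hunb m), fun k hk => Nat.find_min (hunb m) hk⟩
  have h0 := hs t m ht
  rcases t with _ | k
  · rw [pow_zero, mul_one] at h0
    have h00 : 0 ≤ 3 * S * Kc * Bd := by positivity
    nlinarith
  · have h1 := hmin k (Nat.lt_succ_self k)
    push Not at h1
    have h2 : (M k : ℝ) ≤ m := by exact_mod_cast h1.le
    have h3 : Q ^ k ≤ (Kc * ((k : ℝ) + 1) ^ D) * m :=
      (hM k).trans (mul_le_mul_of_nonneg_left h2 (by positivity))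
    have hbase : 1 ≤ Kc * ((k : ℝ) + 1) ^ D := by
      have : (1 : ℝ) ≤ ((k : ℝ) + 1) ^ D := one_le_pow₀ (by linarith [Nat.cast_nonneg (α := ℝ) k])
      nlinarith
    have h4 : (Q ^ b) ^ k ≤ (Kc * ((k : ℝ) + 1) ^ D) * (m : ℝ) ^ b := by
      calc (Q ^ b) ^ k = (Q ^ k) ^ b := by
            rw [← Real.rpow_natCast (Q ^ b) k, ← Real.rpow_mul hQ0.le, mul_comm,
              Real.rpow_mul hQ0.le, Real.rpow_natCast]
        _ ≤ ((Kc * ((k : ℝ) + 1) ^ D) * m) ^ b :=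
            Real.rpow_le_rpow (by positivity) h3 hb0.le
        _ = (Kc * ((k : ℝ) + 1) ^ D) ^ b * (m : ℝ) ^ b := by
            rw [Real.mul_rpow (by positivity) (by positivity)]
        _ ≤ (Kc * ((k : ℝ) + 1) ^ D) * (m : ℝ) ^ b := by
            apply mul_le_mul_of_nonneg_right _ (by positivity)
            calc (Kc * ((k : ℝ) + 1) ^ D) ^ b ≤ (Kc * ((k : ℝ) + 1) ^ D) ^ (1 : ℝ) :=
                  Real.rpow_le_rpow_of_exponent_le hbase hb2
              _ = _ := Real.rpow_one _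
    have h5 : S ^ k = θ ^ k * (Q ^ b) ^ k := by
      rw [hθ, div_pow]
      field_simp
    have h6 : θ ^ k * ((Kc * ((k : ℝ) + 1) ^ D) * (m : ℝ) ^ b) ≤ Kc * Bd * (m : ℝ) ^ b := by
      have := hBd k
      calc θ ^ k * ((Kc * ((k : ℝ) + 1) ^ D) * (m : ℝ) ^ b)
          = (Kc * (m : ℝ) ^ b) * (((k : ℝ) + 1) ^ D * θ ^ k) := by ring
        _ ≤ (Kc * (m : ℝ) ^ b) * Bd := mul_le_mul_of_nonneg_left this (by positivity)
        _ = _ := by ring
    calc (minSpace 2 m : ℝ) ≤ 3 * S ^ (k + 1) := h0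
      _ = 3 * S * (θ ^ k * (Q ^ b) ^ k) := by rw [pow_succ, h5]; ring
      _ ≤ 3 * S * (θ ^ k * ((Kc * ((k : ℝ) + 1) ^ D) * (m : ℝ) ^ b)) := by
          apply mul_le_mul_of_nonneg_left _ (by positivity)
          exact mul_le_mul_of_nonneg_left h4 (by positivity)
      _ ≤ 3 * S * (Kc * Bd * (m : ℝ) ^ b) := mul_le_mul_of_nonneg_left h6 (by positivity)
      _ ≤ (3 * S * Kc * Bd + 3) * (m : ℝ) ^ b := by nlinarith

/-- Adding a factor which is only seen by the second probes. -/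
theorem Good.prod {X α β γ T : Type} {A : X → α} {B : X → β} {C : X → γ} (H : Good A B C) :
    Good (X := X × T) (fun x => A x.1) (fun x => (B x.1, x.2)) (fun x => (C x.1, x.2)) := by
  constructor
  · rintro ⟨x, s⟩ ⟨y, u⟩ h h'
    simp only [Prod.mk.injEq] at h h' ⊢
    exact ⟨H.hB _ _ h h'.1, h'.2⟩
  · rintro ⟨x, s⟩ ⟨y, u⟩ h h'
    simp only [Prod.mk.injEq] at h h' ⊢
    exact ⟨H.hC _ _ h h'.1, h'.2⟩
  · rintro e g y h h' h''
    simp only [Prod.mk.injEq] at h h' h'' ⊢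
    exact H.h1 _ _ _ h h'.1 h''.1
  · rintro x e y g f h k1 k2 k3 k4 k5 k6 k7
    simp only [Prod.mk.injEq] at k1 k2 k3 k4 k5 k6 k7 ⊢
    exact H.h2 _ _ _ _ _ _ k1 k2 k3 k4.1 k5.1 k6.1 k7.1

theorem card_upper_real {L : Type} [Fintype L] [DecidableEq L] (r : L → ℕ) (R : ℕ)
    (hR : ∑ l, r l = R) (hr : 0 < ∏ l, r l ^ r l) (t : ℕ) :
    (Fintype.card (Cls (R * t) (fun l => r l * t)) : ℝ) ≤
      (((R : ℝ) ^ R) / ((∏ l, r l ^ r l : ℕ) : ℝ)) ^ t := by
  subst hR
  have h := card_cls_upper r t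
  have h' : (Fintype.card (Cls ((∑ l, r l) * t) (fun l => r l * t)) : ℝ) *
      (((∏ l, r l ^ r l : ℕ) : ℝ)) ^ t ≤ ((((∑ l, r l : ℕ) : ℝ)) ^ (∑ l, r l)) ^ t := by
    exact_mod_cast h
  have hpos : (0 : ℝ) < ((∏ l, r l ^ r l : ℕ) : ℝ) := by exact_mod_cast hr
  rw [div_pow, le_div_iff₀ (by positivity)]
  exact h'

theorem sum_push {L M : Type} [Fintype L] [DecidableEq L] [Fintype M] [DecidableEq M]
    (a : L → M) (r : L → ℕ) (ra : M → ℕ)
    (hra : ∀ m, ∑ l ∈ univ.filter (fun l => a l = m), r l = ra m) :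
    ∑ m, ra m = ∑ l, r l := by
  rw [← Finset.sum_fiberwise univ a r]
  exact Finset.sum_congr rfl fun m _ => (hra m).symm

theorem prod_self_pow_pos {L : Type} [Fintype L] (r : L → ℕ) : 0 < ∏ l, r l ^ r l := by
  apply Finset.prod_pos
  intro l _
  rcases Nat.eq_zero_or_pos (r l) with h | h
  · rw [h]; norm_num
  · positivity

/-- Every certified finite system of letters bounds the exponent. -/
theorem exponent_of_cert {L α β γ : Type} [Fintype L] [DecidableEq L]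
    [Fintype α] [DecidableEq α] [Fintype β] [DecidableEq β] [Fintype γ] [DecidableEq γ]
    (a : L → α) (b : L → β) (c : L → γ)
    (hB : ∀ x y, a x = a y → b x = b y → x = y)
    (hC : ∀ x y, a x = a y → c x = c y → x = y)
    (h1 : ∀ e g y, a e = a g → b e = b y → c g = c y → a e = a y)
    (wx we wy wg wf wh : L → ℤ) (hw : ∀ l, wx l + we l + wy l + wg l + wf l + wh l = 0)
    (h2 : ∀ x e, a x = a e → ∀ y, b e = b y → ∀ g, a y = a g → c g = c x → ∀ f, b f = b x →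
      ∀ h, a f = a h → c h = c y →
      (if a x = a y then 0 else 1) ≤ wx x + we e + wy y + wg g + wf f + wh h)
    (r : L → ℕ) (ra : α → ℕ) (rb : β → ℕ) (rc : γ → ℕ)
    (hra : ∀ m, ∑ l ∈ univ.filter (fun l => a l = m), r l = ra m)
    (hrb : ∀ m, ∑ l ∈ univ.filter (fun l => b l = m), r l = rb m)
    (hrc : ∀ m, ∑ l ∈ univ.filter (fun l => c l = m), r l = rc m)
    (R : ℕ) (hR : ∑ l, r l = R) (ρ : ℕ) (hρ : 1 ≤ ρ)
    (hρB : ρ * ∏ m, ra m ^ ra m ≤ ∏ m, rb m ^ rb m)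
    (hρC : ρ * ∏ m, ra m ^ ra m ≤ ∏ m, rc m ^ rc m)
    (hS : ∏ m, ra m ^ ra m ≤ R ^ R)
    (hSQ : ∏ l, r l ^ r l < ρ * ∏ m, ra m ^ ra m)
    (κ : ℝ) (hκ : Real.log ((R : ℝ) ^ R / ((∏ m, ra m ^ ra m : ℕ) : ℝ)) /
      Real.log ((ρ : ℝ) * (R : ℝ) ^ R / ((∏ l, r l ^ r l : ℕ) : ℝ)) < κ) :
    ∃ K : ℝ, ∀ m : ℕ, 1 ≤ m → (minSpace 2 m : ℝ) ≤ K * (m : ℝ) ^ κ := by
  classical
  have hPA := prod_self_pow_pos ra
  have hPB := prod_self_pow_pos rb
  have hPC := prod_self_pow_pos rc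
  have hP := prod_self_pow_pos r
  set PA := ∏ m, ra m ^ ra m with hPAdef
  set PB := ∏ m, rb m ^ rb m with hPBdef
  set PC := ∏ m, rc m ^ rc m with hPCdef
  set P := ∏ l, r l ^ r l with hPdef
  have hPA' : (0 : ℝ) < PA := by exact_mod_cast hPA
  have hPB' : (0 : ℝ) < PB := by exact_mod_cast hPB
  have hPC' : (0 : ℝ) < PC := by exact_mod_cast hPC
  have hP' : (0 : ℝ) < P := by exact_mod_cast hP
  have hρ' : (1 : ℝ) ≤ ρ := by exact_mod_cast hρ
  have hRR : (0 : ℝ) < (R : ℝ) ^ R := by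
    have : (PA : ℝ) ≤ (R : ℝ) ^ R := by exact_mod_cast hS
    linarith
  refine asymp ((R : ℝ) ^ R / PA) ((ρ : ℝ) * (R : ℝ) ^ R / P)
    (∏ l, (Real.exp 1 * ((r l : ℝ) + 1))) (Fintype.card L) ?_ ?_ ?_
    (fun t => Fintype.card (Cls (R * t) (fun l => r l * t)) * ρ ^ t) ?_ ?_ κ hκ
  · rw [one_le_div hPA']
    exact_mod_cast hS
  · rw [div_lt_div_iff₀ hPA' hP']
    have : (P : ℝ) < ρ * PA := by exact_mod_cast hSQ
    nlinarith
  · calc (1 : ℝ) = ∏ _l : L, (1 : ℝ) := by simp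
      _ ≤ ∏ l, (Real.exp 1 * ((r l : ℝ) + 1)) := by
          apply Finset.prod_le_prod
          · intro l _; norm_num
          · intro l _
            have h1 := Real.add_one_le_exp (1 : ℝ)
            have h2 : (0 : ℝ) ≤ r l := Nat.cast_nonneg _
            nlinarith
  · intro t
    have h := card_lower r t
    rw [hR] at h
    have h3 : (∏ l, (Real.exp 1 * (((r l * t : ℕ) : ℝ) + 1))) ≤
        (∏ l, (Real.exp 1 * ((r l : ℝ) + 1))) * ((t : ℝ) + 1) ^ Fintype.card L := by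
      rw [← Finset.card_univ, ← Finset.prod_const, ← Finset.prod_mul_distrib]
      apply Finset.prod_le_prod
      · intro l _; positivity
      · intro l _
        push_cast
        have h1 : (0 : ℝ) ≤ r l := Nat.cast_nonneg _
        have h2 : (0 : ℝ) ≤ t := Nat.cast_nonneg _
        have h4 := Real.exp_pos (1 : ℝ)
        rw [mul_assoc]
        apply mul_le_mul_of_nonneg_left _ h4.le
        nlinarith
    push_cast
    rw [div_pow, div_le_iff₀ (by positivity), mul_pow]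
    calc (ρ : ℝ) ^ t * ((R : ℝ) ^ R) ^ t
        ≤ (ρ : ℝ) ^ t * ((∏ l, (Real.exp 1 * (((r l * t : ℕ) : ℝ) + 1))) *
          Fintype.card (Cls (R * t) (fun l => r l * t)) * (P : ℝ) ^ t) :=
          mul_le_mul_of_nonneg_left h (by positivity)
      _ ≤ (ρ : ℝ) ^ t * (((∏ l, (Real.exp 1 * ((r l : ℝ) + 1))) * ((t : ℝ) + 1) ^ Fintype.card L) *
          Fintype.card (Cls (R * t) (fun l => r l * t)) * (P : ℝ) ^ t) := by
          apply mul_le_mul_of_nonneg_left _ (by positivity)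
          apply mul_le_mul_of_nonneg_right _ (by positivity)
          exact mul_le_mul_of_nonneg_right h3 (Nat.cast_nonneg _)
      _ = _ := by ring
  · intro t m hm
    have hgood := good_of_cert a b c hB hC h1 wx we wy wg wf wh hw h2 (n := R * t)
      (r := fun l => r l * t) (ra := fun m => ra m * t) (rb := fun m => rb m * t)
      (rc := fun m => rc m * t)
      (fun m => by rw [← hra m, Finset.sum_mul])
      (fun m => by rw [← hrb m, Finset.sum_mul])
      (fun m => by rw [← hrc m, Finset.sum_mul])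
    have hcor := (hgood.prod (T := Fin (ρ ^ t))).correct
    have hcardle : Fintype.card (Fin m) ≤
        Fintype.card (Cls (R * t) (fun l => r l * t) × Fin (ρ ^ t)) := by
      rw [Fintype.card_prod, Fintype.card_fin, Fintype.card_fin]
      exact hm
    obtain ⟨f⟩ := Function.Embedding.nonempty_of_card_le hcardle
    have hsch := transfer hcor f f.injective
    have hle : minSpace 2 m ≤ _ := Nat.sInf_le hsch
    have hle' : (minSpace 2 m : ℝ) ≤
        (Fintype.card (Cls (R * t) (fun m => ra m * t)) : ℝ) +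
        (Fintype.card (Cls (R * t) (fun m => rb m * t)) : ℝ) * (ρ : ℝ) ^ t +
        (Fintype.card (Cls (R * t) (fun m => rc m * t)) : ℝ) * (ρ : ℝ) ^ t := by
      rw [Fintype.card_prod, Fintype.card_prod, Fintype.card_fin] at hle
      exact_mod_cast hle
    have hA := card_upper_real ra R ((sum_push a r ra hra).trans hR) hPA t
    have hB' := card_upper_real rb R ((sum_push b r rb hrb).trans hR) hPB t
    have hC' := card_upper_real rc R ((sum_push c r rc hrc).trans hR) hPC t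
    have key : ∀ PX : ℕ, ρ * PA ≤ PX →
        ((R : ℝ) ^ R / PX) ^ t * (ρ : ℝ) ^ t ≤ ((R : ℝ) ^ R / PA) ^ t := by
      intro PX hX
      have hX' : (ρ : ℝ) * PA ≤ PX := by exact_mod_cast hX
      have hPX : (0 : ℝ) < PX := by nlinarith
      rw [← mul_pow]
      apply pow_le_pow_left₀ (by positivity)
      rw [div_mul_eq_mul_div, div_le_div_iff₀ hPX hPA']
      nlinarith
    have e1 := mul_le_mul_of_nonneg_right hB' (show (0 : ℝ) ≤ (ρ : ℝ) ^ t by positivity)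
    have e2 := mul_le_mul_of_nonneg_right hC' (show (0 : ℝ) ≤ (ρ : ℝ) ^ t by positivity)
    have e3 := key PB hρB
    have e4 := key PC hρC
    linarith

end Pool.Agent.Y497.BP
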