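import Mathlib
import Pool.Agent.Y497.BP.Main

set_option autoImplicit false

namespace Pool.Agent.Y497.BP

open Finset
open Pool.Agent.Results.MP_b7335c_lc.TwoProbePowerSaving

theorem Good.swap {X α β γ : Type} {A : X → α} {B : X → β} {C : X → γ} (H : Good A B C) :
    Good A C B := by
  constructor
  · exact H.hC
  · exact H.hB
  · intro e g y h h' h''
    exact h.trans (H.h1 g e y h.symm h'' h')
  · intro x e y g f h k1 k2 k3 k4 k5 k6 k7
    exact (H.h2 y g x e h f k2 k1 k3.symm k5 k4 k7 k6).symm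

theorem Good.mul {X α β γ X' α' β' γ' : Type} {A : X → α} {B : X → β} {C : X → γ}
    {A' : X' → α'} {B' : X' → β'} {C' : X' → γ'} (H : Good A B C) (H' : Good A' B' C') :
    Good (X := X × X') (fun x => (A x.1, A' x.2)) (fun x => (B x.1, B' x.2))
      (fun x => (C x.1, C' x.2)) := by
  constructor
  · rintro ⟨x, s⟩ ⟨y, u⟩ h h'
    simp only [Prod.mk.injEq] at h h' ⊢
    exact ⟨H.hB _ _ h.1 h'.1, H'.hB _ _ h.2 h'.2⟩
  · rintro ⟨x, s⟩ ⟨y, u⟩ h h'
    simp only [Prod.mk.injEq] at h h' ⊢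
    exact ⟨H.hC _ _ h.1 h'.1, H'.hC _ _ h.2 h'.2⟩
  · rintro e g y h h' h''
    simp only [Prod.mk.injEq] at h h' h'' ⊢
    exact ⟨H.h1 _ _ _ h.1 h'.1 h''.1, H'.h1 _ _ _ h.2 h'.2 h''.2⟩
  · rintro x e y g f h k1 k2 k3 k4 k5 k6 k7
    simp only [Prod.mk.injEq] at k1 k2 k3 k4 k5 k6 k7 ⊢
    exact ⟨H.h2 _ _ _ _ _ _ k1.1 k2.1 k3.1 k4.1 k5.1 k6.1 k7.1,
      H'.h2 _ _ _ _ _ _ k1.2 k2.2 k3.2 k4.2 k5.2 k6.2 k7.2⟩

/-- Every certified finite system of letters bounds the exponent (symmetrised form: the system is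
multiplied with its mirror image and with a one-block factor). -/
theorem exponent_of_cert_sym {L α β γ : Type} [Fintype L] [DecidableEq L]
    [Fintype α] [DecidableEq α] [Fintype β] [DecidableEq β] [Fintype γ] [DecidableEq γ]
    (a : L → α) (b : L → β) (c : L → γ)
    (hB : ∀ x y, a x = a y → b x = b y → x = y)
    (hC : ∀ x y, a x = a y → c x = c y → x = y)
    (h1 : ∀ e g y, a e = a g → b e = b y → c g = c y → a e = a y)
    (wx we wy wg wf wh : L → ℤ) (hw : ∀ l, wx l + we l + wy l + wg l + wf l + wh l = 0)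
    (h2 : ∀ x e, a x = a e → ∀ y, b e = b y → ∀ g, a y = a g → c g = c x → ∀ f, b f = b x →
      ∀ h, a f = a h → c h = c y →
      (if a x = a y then 0 else 1) ≤ wx x + we e + wy y + wg g + wf f + wh h)
    (r : L → ℕ) (ra : α → ℕ) (rb : β → ℕ) (rc : γ → ℕ)
    (hra : ∀ m, ∑ l ∈ univ.filter (fun l => a l = m), r l = ra m)
    (hrb : ∀ m, ∑ l ∈ univ.filter (fun l => b l = m), r l = rb m)
    (hrc : ∀ m, ∑ l ∈ univ.filter (fun l => c l = m), r l = rc m)
    (R : ℕ) (hR : ∑ l, r l = R) (ρ : ℕ) (hρ : 1 ≤ ρ)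
    (hρBC : ρ * (∏ m, ra m ^ ra m) ^ 2 ≤ (∏ m, rb m ^ rb m) * ∏ m, rc m ^ rc m)
    (hS : ∏ m, ra m ^ ra m ≤ R ^ R)
    (hSQ : (∏ l, r l ^ r l) ^ 2 < ρ * (∏ m, ra m ^ ra m) ^ 2)
    (κ : ℝ) (hκ : Real.log ((((R ^ R) ^ 2 : ℕ) : ℝ) / (((∏ m, ra m ^ ra m) ^ 2 : ℕ) : ℝ)) /
      Real.log ((ρ : ℝ) * (((R ^ R) ^ 2 : ℕ) : ℝ) / (((∏ l, r l ^ r l) ^ 2 : ℕ) : ℝ)) < κ) :
    ∃ K : ℝ, ∀ m : ℕ, 1 ≤ m → (minSpace 2 m : ℝ) ≤ K * (m : ℝ) ^ κ := by
  classical
  have hPA := prod_self_pow_pos ra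
  have hPB := prod_self_pow_pos rb
  have hPC := prod_self_pow_pos rc
  have hP := prod_self_pow_pos r
  set PA := ∏ m, ra m ^ ra m with hPAdef
  set PB := ∏ m, rb m ^ rb m with hPBdef
  set PC := ∏ m, rc m ^ rc m with hPCdef
  set P := ∏ l, r l ^ r l with hPdef
  have hPA' : (0 : ℝ) < PA := by exact_mod_cast hPA
  have hPB' : (0 : ℝ) < PB := by exact_mod_cast hPB
  have hPC' : (0 : ℝ) < PC := by exact_mod_cast hPC
  have hP' : (0 : ℝ) < P := by exact_mod_cast hP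
  have hρ' : (1 : ℝ) ≤ ρ := by exact_mod_cast hρ
  have hPAR : (PA : ℝ) ≤ (R : ℝ) ^ R := by exact_mod_cast hS
  have hRR : (0 : ℝ) < (R : ℝ) ^ R := by linarith
  push_cast at hκ
  refine asymp (((R : ℝ) ^ R) ^ 2 / (PA : ℝ) ^ 2) ((ρ : ℝ) * ((R : ℝ) ^ R) ^ 2 / (P : ℝ) ^ 2)
    ((∏ l, (Real.exp 1 * ((r l : ℝ) + 1))) ^ 2) (Fintype.card L * 2) ?_ ?_ ?_
    (fun t => Fintype.card (Cls (R * t) (fun l => r l * t)) ^ 2 * ρ ^ t) ?_ ?_ κ hκ
  · rw [one_le_div (by positivity)]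
    exact pow_le_pow_left₀ hPA'.le hPAR 2
  · rw [div_lt_div_iff₀ (by positivity) (by positivity)]
    have : (P : ℝ) ^ 2 < ρ * (PA : ℝ) ^ 2 := by exact_mod_cast hSQ
    have h3 : 0 < ((R : ℝ) ^ R) ^ 2 := by positivity
    nlinarith
  · apply one_le_pow₀
    calc (1 : ℝ) = ∏ _l : L, (1 : ℝ) := by simp
      _ ≤ ∏ l, (Real.exp 1 * ((r l : ℝ) + 1)) := by
          apply Finset.prod_le_prod
          · intro l _; norm_num
          · intro l _
            have h1 := Real.add_one_le_exp (1 : ℝ)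
            have h2 : (0 : ℝ) ≤ r l := Nat.cast_nonneg _
            nlinarith
  · intro t
    have h := card_lower r t
    rw [hR] at h
    have h3 : (∏ l, (Real.exp 1 * (((r l * t : ℕ) : ℝ) + 1))) ≤
        (∏ l, (Real.exp 1 * ((r l : ℝ) + 1))) * ((t : ℝ) + 1) ^ Fintype.card L := by
      rw [← Finset.card_univ, ← Finset.prod_const, ← Finset.prod_mul_distrib]
      apply Finset.prod_le_prod
      · intro l _; positivity
      · intro l _
        push_cast
        have h1 : (0 : ℝ) ≤ r l := Nat.cast_nonneg _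
        have h2 : (0 : ℝ) ≤ t := Nat.cast_nonneg _
        have h4 := Real.exp_pos (1 : ℝ)
        rw [mul_assoc]
        apply mul_le_mul_of_nonneg_left _ h4.le
        nlinarith
    have h5 : ((R : ℝ) ^ R) ^ t ≤ ((∏ l, (Real.exp 1 * ((r l : ℝ) + 1))) *
        ((t : ℝ) + 1) ^ Fintype.card L) *
          Fintype.card (Cls (R * t) (fun l => r l * t)) * (P : ℝ) ^ t := by
      refine h.trans ?_
      apply mul_le_mul_of_nonneg_right _ (by positivity)
      exact mul_le_mul_of_nonneg_right h3 (Nat.cast_nonneg _)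
    have h6 := pow_le_pow_left₀ (by positivity) h5 2
    push_cast
    rw [div_pow, div_le_iff₀ (by positivity), mul_pow]
    calc (ρ : ℝ) ^ t * (((R : ℝ) ^ R) ^ 2) ^ t
        = (ρ : ℝ) ^ t * (((R : ℝ) ^ R) ^ t) ^ 2 := by
          rw [← pow_mul ((R : ℝ) ^ R), ← pow_mul ((R : ℝ) ^ R), mul_comm 2 t]
      _ ≤ (ρ : ℝ) ^ t * (((∏ l, (Real.exp 1 * ((r l : ℝ) + 1))) *
        ((t : ℝ) + 1) ^ Fintype.card L) *
          Fintype.card (Cls (R * t) (fun l => r l * t)) * (P : ℝ) ^ t) ^ 2 :=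
          mul_le_mul_of_nonneg_left h6 (by positivity)
      _ = _ := by
          rw [← pow_mul (P : ℝ) 2 t, mul_comm 2 t, pow_mul (P : ℝ) t 2,
            pow_mul ((t : ℝ) + 1) (Fintype.card L) 2]
          ring
  · intro t m hm
    have hgood := good_of_cert a b c hB hC h1 wx we wy wg wf wh hw h2 (n := R * t)
      (r := fun l => r l * t) (ra := fun m => ra m * t) (rb := fun m => rb m * t)
      (rc := fun m => rc m * t)
      (fun m => by rw [← hra m, Finset.sum_mul])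
      (fun m => by rw [← hrb m, Finset.sum_mul])
      (fun m => by rw [← hrc m, Finset.sum_mul])
    have hcor := ((hgood.mul hgood.swap).prod (T := Fin (ρ ^ t))).correct
    have hcardle : Fintype.card (Fin m) ≤
        Fintype.card ((Cls (R * t) (fun l => r l * t) × Cls (R * t) (fun l => r l * t)) ×
          Fin (ρ ^ t)) := by
      rw [Fintype.card_prod, Fintype.card_prod, Fintype.card_fin, Fintype.card_fin, ← sq]
      exact hm
    obtain ⟨f⟩ := Function.Embedding.nonempty_of_card_le hcardle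
    have hsch := transfer hcor f f.injective
    have hle : minSpace 2 m ≤ _ := Nat.sInf_le hsch
    have hle' : (minSpace 2 m : ℝ) ≤
        (Fintype.card (Cls (R * t) (fun m => ra m * t)) : ℝ) *
          (Fintype.card (Cls (R * t) (fun m => ra m * t)) : ℝ) +
        (Fintype.card (Cls (R * t) (fun m => rb m * t)) : ℝ) *
          (Fintype.card (Cls (R * t) (fun m => rc m * t)) : ℝ) * (ρ : ℝ) ^ t +
        (Fintype.card (Cls (R * t) (fun m => rc m * t)) : ℝ) *
          (Fintype.card (Cls (R * t) (fun m => rb m * t)) : ℝ) * (ρ : ℝ) ^ t := by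
      rw [Fintype.card_prod, Fintype.card_prod, Fintype.card_prod, Fintype.card_prod,
        Fintype.card_prod, Fintype.card_fin] at hle
      exact_mod_cast hle
    have hA := card_upper_real ra R ((sum_push a r ra hra).trans hR) hPA t
    have hB' := card_upper_real rb R ((sum_push b r rb hrb).trans hR) hPB t
    have hC' := card_upper_real rc R ((sum_push c r rc hrc).trans hR) hPC t
    have key : ((R : ℝ) ^ R / PB) ^ t * ((R : ℝ) ^ R / PC) ^ t * (ρ : ℝ) ^ t ≤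
        (((R : ℝ) ^ R) ^ 2 / (PA : ℝ) ^ 2) ^ t := by
      have hX' : (ρ : ℝ) * (PA : ℝ) ^ 2 ≤ PB * PC := by exact_mod_cast hρBC
      rw [← mul_pow, ← mul_pow]
      apply pow_le_pow_left₀ (by positivity)
      rw [div_mul_div_comm, div_mul_eq_mul_div, div_le_div_iff₀ (by positivity) (by positivity)]
      have h3 : 0 < ((R : ℝ) ^ R) ^ 2 := by positivity
      nlinarith
    have eA : (Fintype.card (Cls (R * t) (fun m => ra m * t)) : ℝ) *
          (Fintype.card (Cls (R * t) (fun m => ra m * t)) : ℝ) ≤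
          (((R : ℝ) ^ R) ^ 2 / (PA : ℝ) ^ 2) ^ t := by
      calc _ ≤ ((R : ℝ) ^ R / PA) ^ t * ((R : ℝ) ^ R / PA) ^ t :=
            mul_le_mul hA hA (Nat.cast_nonneg _) (by positivity)
        _ = _ := by rw [← mul_pow]; congr 1; field_simp
    have eBC : (Fintype.card (Cls (R * t) (fun m => rb m * t)) : ℝ) *
          (Fintype.card (Cls (R * t) (fun m => rc m * t)) : ℝ) * (ρ : ℝ) ^ t ≤
          (((R : ℝ) ^ R) ^ 2 / (PA : ℝ) ^ 2) ^ t := by
      refine le_trans ?_ key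
      apply mul_le_mul_of_nonneg_right _ (by positivity)
      exact mul_le_mul hB' hC' (Nat.cast_nonneg _) (by positivity)
    have eCB : (Fintype.card (Cls (R * t) (fun m => rc m * t)) : ℝ) *
          (Fintype.card (Cls (R * t) (fun m => rb m * t)) : ℝ) * (ρ : ℝ) ^ t ≤
          (((R : ℝ) ^ R) ^ 2 / (PA : ℝ) ^ 2) ^ t := by
      rw [mul_comm (Fintype.card (Cls (R * t) (fun m => rc m * t)) : ℝ)]
      exact eBC
    linarith

theorem ratio_lt (N PA P ρ p q : ℕ) (hPA : 0 < PA) (hP : 0 < P) (hρ : 0 < ρ)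
    (hq : 0 < q) (hPQ : P < ρ * PA) (hS : PA ≤ N)
    (h : N ^ q * P ^ p < (ρ * N) ^ p * PA ^ q) :
    Real.log ((N : ℝ) / (PA : ℝ)) / Real.log ((ρ : ℝ) * (N : ℝ) / (P : ℝ)) <
      (p : ℝ) / (q : ℝ) := by
  have hPA' : (0 : ℝ) < PA := by exact_mod_cast hPA
  have hP' : (0 : ℝ) < P := by exact_mod_cast hP
  have hρ' : (0 : ℝ) < ρ := by exact_mod_cast hρ
  have hq' : (0 : ℝ) < q := by exact_mod_cast hq
  have h1 : (PA : ℝ) ≤ (N : ℝ) := by exact_mod_cast hS
  have hN : (0 : ℝ) < (N : ℝ) := by linarith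
  have h2 : (P : ℝ) < ρ * PA := by exact_mod_cast hPQ
  have hQ1 : 1 < (ρ : ℝ) * (N : ℝ) / (P : ℝ) := by
    rw [one_lt_div hP']
    nlinarith
  rw [div_lt_div_iff₀ (Real.log_pos hQ1) hq', mul_comm, ← Real.log_pow, ← Real.log_pow]
  apply Real.log_lt_log (by positivity)
  rw [div_pow, div_pow, div_lt_div_iff₀ (by positivity) (by positivity)]
  exact_mod_cast h

end Pool.Agent.Y497.BP
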