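import Mathlib
import Pool.Agent.Y497.BP.Sym

set_option autoImplicit false

namespace Pool.Agent.Y497.BP.Ex

open Finset
open Pool.Agent.Results.MP_b7335c_lc.TwoProbePowerSaving

/-- Positions of the letters in the first table. -/
def la : Fin 44 → Fin 16 :=
  ![4, 5, 6, 7, 8, 9, 10, 11, 4, 5, 6, 7, 4, 5, 6, 7, 8, 9, 10, 11, 0, 1, 2, 3, 12, 13, 14,
    15, 8, 9, 10, 11, 12, 13, 14, 15, 0, 1, 2, 3, 0, 1, 2, 3]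

/-- Positions of the letters in the second table. -/
def lb : Fin 44 → Fin 8 :=
  ![2, 3, 0, 1, 4, 5, 6, 7, 1, 2, 3, 0, 4, 5, 6, 7, 5, 6, 7, 4, 5, 6, 7, 4, 2, 3, 0, 1, 6, 7,
    4, 5, 6, 7, 4, 5, 0, 1, 2, 3, 3, 0, 1, 2]

/-- Positions of the letters in the third table. -/
def lc : Fin 44 → Fin 12 :=
  ![0, 1, 2, 3, 2, 3, 0, 1, 1, 2, 3, 0, 8, 9, 10, 11, 11, 8, 9, 10, 5, 6, 7, 4, 3, 0, 1, 2, 1,
    2, 3, 0, 7, 4, 5, 6, 7, 4, 5, 6, 8, 9, 10, 11]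

/-- Frequencies of the letters. -/
def r : Fin 44 → ℕ :=
  ![26, 26, 26, 26, 347, 347, 347, 347, 26, 26, 26, 26, 65, 65, 65, 65, 207, 207, 207, 207, 1,
    1, 1, 1, 4, 4, 4, 4, 347, 347, 347, 347, 1, 1, 1, 1, 1, 1, 1, 1, 2, 2, 2, 2]

def ra : Fin 16 → ℕ := ![4, 4, 4, 4, 117, 117, 117, 117, 901, 901, 901, 901, 5, 5, 5, 5]

def rb : Fin 8 → ℕ := ![59, 59, 59, 59, 968, 968, 968, 968]

def rc : Fin 12 → ℕ := ![750, 750, 750, 750, 3, 3, 3, 3, 274, 274, 274, 274]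

def wx : Fin 44 → ℤ :=
  ![1, 1, 1, 1, (-2), (-2), (-2), (-2), 1, 1, 1, 1, (-6), (-6), (-6), (-6), (-2), (-2), (-2),
    (-2), 0, 0, 0, 0, 6, 6, 6, 6, (-2), (-2), (-2), (-2), 6, 6, 6, 6, 0, 0, 0, 0, 0, 0, 0, 0]

def we : Fin 44 → ℤ :=
  ![4, 4, 4, 4, 0, 0, 0, 0, 4, 4, 4, 4, 0, 0, 0, 0, 2, 2, 2, 2, 6, 6, 6, 6, (-8), (-8), (-8),
    (-8), 0, 0, 0, 0, 0, 0, 0, 0, (-1), (-1), (-1), (-1), 0, 0, 0, 0]

def wy : Fin 44 → ℤ :=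
  ![0, 0, 0, 0, 0, 0, 0, 0, 0, 0, 0, 0, 3, 3, 3, 3, 0, 0, 0, 0, 0, 0, 0, 0, 0, 0, 0, 0, 0, 0,
    0, 0, 0, 0, 0, 0, 0, 0, 0, 0, 0, 0, 0, 0]

def wg : Fin 44 → ℤ :=
  ![0, 0, 0, 0, 0, 0, 0, 0, 0, 0, 0, 0, 0, 0, 0, 0, 0, 0, 0, 0, 0, 0, 0, 0, 0, 0, 0, 0, 0, 0,
    0, 0, 0, 0, 0, 0, 0, 0, 0, 0, 0, 0, 0, 0]

def wf : Fin 44 → ℤ :=
  ![(-7), (-7), (-7), (-7), 0, 0, 0, 0, (-7), (-7), (-7), (-7), 0, 0, 0, 0, 0, 0, 0, 0, 0, 0,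
    0, 0, 0, 0, 0, 0, 0, 0, 0, 0, 0, 0, 0, 0, 0, 0, 0, 0, 0, 0, 0, 0]

def wh : Fin 44 → ℤ :=
  ![2, 2, 2, 2, 2, 2, 2, 2, 2, 2, 2, 2, 3, 3, 3, 3, 0, 0, 0, 0, (-6), (-6), (-6), (-6), 2, 2,
    2, 2, 2, 2, 2, 2, (-6), (-6), (-6), (-6), 1, 1, 1, 1, 0, 0, 0, 0]

def rho : ℕ := 16

theorem exponent : ∃ K : ℝ, ∀ m : ℕ, 1 ≤ m →
    (minSpace 2 m : ℝ) ≤ K * (m : ℝ) ^ ((22 : ℝ) / 35) := by
  refine exponent_of_cert_sym la lb lc (by decide +kernel) (by decide +kernel)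
    (by decide +kernel) wx we wy wg wf wh (by decide +kernel) (by decide +kernel) r ra rb rc
    (by decide +kernel) (by decide +kernel) (by decide +kernel) 4108 (by decide +kernel) rho
    (by decide +kernel) (by decide +kernel) (by decide +kernel) (by decide +kernel) _ ?_
  have h := ratio_lt ((4108 ^ 4108) ^ 2) ((∏ m, ra m ^ ra m) ^ 2) ((∏ l, r l ^ r l) ^ 2) rho 22 35
    (pow_pos (prod_self_pow_pos ra) 2) (pow_pos (prod_self_pow_pos r) 2) (by decide +kernel)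
    (by norm_num) (by decide +kernel) (by decide +kernel) (by decide +kernel)
  exact_mod_cast h

end Pool.Agent.Y497.BP.Ex
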